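import Pool.Agent.LibDC76.Final

set_option autoImplicit false

namespace Pool.Agent.Results.MP_b7cd1b_ag.DeterminantClasses

open Module Pool.Agent.LibDC76

/-- See the claim file. -/
theorem result {K V G S : Type} [Field K] [CharZero K] [TopologicalSpace K] [IsTopologicalRing K]
    [T1Space K] [AddCommGroup V] [Module K V] [FiniteDimensional K V] [Group G] [TopologicalSpace G]
    [IsTopologicalGroup G] (R : Reductions K V G S) (π : End K V) (hπ : π * π = π) (m : ℕ)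
    (hm : 0 < m) (hU : finrank K (LinearMap.range π) = 2 * m)
    (c : V [⋀^Fin (2 * m)]→ₗ[K] K) (hc : ∀ v : Fin (2 * m) → V, c (fun i => π (v i)) = c v) (g : G)
    (hπ0 : π ∈ R.corr₀ ∨
      (∃ N : Subgroup G, N.Normal ∧ IsOpen (N : Set G) ∧ ∀ h ∈ N, R.ρ h * π = π * R.ρ h) ∧
      ∃ O : Set G, IsOpen O ∧ g ∈ O ∧ ∀ s, R.frob s ∈ O → π ∈ R.corr s)
    (hg : R.ρ g ^ 2 * π = π * R.ρ g ^ 2)
    (hd : ∀ u ∈ LinearMap.range π, (∀ y ∈ LinearMap.range π, R.ω u (R.ρ g y) = 0) → u = 0)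
    (he : (∀ u ∈ LinearMap.range π, R.ρ g (R.ρ g u) = (R.ε * R.χ g) • u → u = 0) ∨ R.IsAbelian) :
    R.Near g c.toMultilinearMap := by
  obtain ⟨⟨N, hN, hNo, hNπ⟩, O, hO, hgO, hOs⟩ :
      (∃ N : Subgroup G, N.Normal ∧ IsOpen (N : Set G) ∧ ∀ h ∈ N, R.ρ h * π = π * R.ρ h) ∧
      ∃ O : Set G, IsOpen O ∧ g ∈ O ∧ ∀ s, R.frob s ∈ O → π ∈ R.corr s := by
    rcases hπ0 with h | h
    · exact ⟨R.defined π h, Set.univ, isOpen_univ, Set.mem_univ _, fun s _ => R.spec s h⟩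
    · exact h
  have hpi : ∀ u ∈ LinearMap.range π, π u = u := by
    rintro _ ⟨v, rfl⟩
    exact LinearMap.congr_fun hπ v
  rcases he with he | hR
  · refine near_of_nondeg R π hπ m hm hU c hc g ⟨O, hO, hgO, hOs⟩
      (nondeg_of_eigen R _ g (fun u hu => ?_) hd he)
    have h := LinearMap.congr_fun hg u
    have h2 : R.ρ g (R.ρ g (π u)) = π (R.ρ g (R.ρ g u)) := by
      simpa [pow_two] using h
    rw [hpi u hu] at h2
    exact ⟨_, h2.symm⟩
  · have hO' : IsOpen ((fun x => g⁻¹ * x) ⁻¹' (N : Set G)) := hNo.preimage (continuous_const_mul _)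
    refine ⟨_, hO'.inter hO, ⟨by simp [N.one_mem], hgO⟩, ?_, fun s hs => ?_⟩
    · obtain ⟨x, hx, s, rfl⟩ := R.dense.inter_open_nonempty _ (hO'.inter hO)
        ⟨g, by simp [N.one_mem], hgO⟩
      exact ⟨s, hx⟩
    · exact abelian_case R hR π hπ m hm hU c hc N hNπ g hg hd s hs.1 (hOs s hs.2)

end Pool.Agent.Results.MP_b7cd1b_ag.DeterminantClasses
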