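import Pool.Agent.LibTE76.C

set_option autoImplicit false

namespace Pool.Agent.Results.MP_b7cd1b_ag.DworkEndomorphisms

open Polynomial Pool.Agent.LibDw64 Pool.Agent.LibTE76

/-- See the claim file. -/
theorem result (n : ℕ) (hn : n.Prime) (hn2 : n ≠ 2) (s : ℚ) (hs : s ^ n ≠ (n : ℚ) ^ n)
    (M : ℕ) (hM : ¬ n ∣ M) (Φ : ℕ → Matrix (Fin (n - 1)) (Fin (n - 1)) ℂ)
    (hΦ : ∀ (p : ℕ) [Fact p.Prime], Good n s p →
      IsFrobN (ZMod p) n ((s.num : ZMod p) / (s.den : ZMod p)) (Φ p))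
    (C : Matrix (Fin (n - 1)) (Fin (n - 1)) ℂ)
    (hC : ∀ p, Good n s p → p ≡ 1 [MOD M] → C * Φ p = Φ p * C) :
    (∀ p, Good n s p → p ≡ 1 [MOD M] → orderOf (p : ZMod n) = n - 1 →
      ∃ P : ℂ[X], C = aeval (Φ p) P) ∧
    {p : ℕ | Good n s p ∧ p ≡ 1 [MOD M] ∧ orderOf (p : ZMod n) = n - 1}.Infinite := by
  refine ⟨fun p hp h1 h2 => ?_, infinite_good n hn M hM s hs⟩
  haveI : Fact p.Prime := ⟨hp.1⟩
  refine aeval_of_finite (ZMod p) n hn hn2 _ (good_ne hp) ?_ (Φ p) C (hΦ p hp) (hC p hp h1)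
  rw [Nat.card_zmod]
  exact h2

end Pool.Agent.Results.MP_b7cd1b_ag.DworkEndomorphisms
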