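import Pool.Agent.LibTE76.D

set_option autoImplicit false

namespace Pool.Agent.Results.MP_b7cd1b_ag.TateProjectors

open Module Pool.Agent.LibDC76 Pool.Agent.LibTE76

/-- See the claim file. -/
theorem result {K V G S : Type} [Field K] [IsAlgClosed K] [TopologicalSpace K] [IsTopologicalRing K]
    [T1Space K] [AddCommGroup V] [Module K V] [FiniteDimensional K V] [Group G] [TopologicalSpace G]
    [IsTopologicalGroup G] (R : Reductions K V G S) (e π : End K V) (he0 : e ∈ R.corr₀)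
    (he : e * e = e) (hπ : π * π = π) (heπ : e * π = π) (hπe : π * e = π)
    (N : Subgroup G) (hN : IsOpen (N : Set G)) (hNπ : ∀ h ∈ N, R.ρ h * π = π * R.ρ h)
    (g : G) (hg : g ∈ N) (hge : R.ρ g * e = e * R.ρ g)
    (hsep : ∀ (μ : K) (u w : V), π u = u → e w = w → π w = 0 →
      R.ρ g u = μ • u → R.ρ g w = μ • w → u = 0 ∨ w = 0) :
    ∃ O : Set G, IsOpen O ∧ g ∈ O ∧ (∃ s, R.frob s ∈ O) ∧ ∀ s, R.frob s ∈ O → π ∈ R.corr s :=
  near_projector R e π he0 he hπ heπ hπe N hN hNπ g hg hge hsep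

end Pool.Agent.Results.MP_b7cd1b_ag.TateProjectors
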